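import Mathlib
import Pool.Agent.W139.PX.F5

/-!
The level of distribution of the base-`b` palindromes tends to `1` (relative to their number) as `b` grows: for the
palindromes with `2L+1` digits, `X = b^L`, and `b ≥ 64`, every level `X^κ` with `b^κ (2 + (2/π) log b) < b` is
admissible, that is `κ < 1 - log_b (2 + (2/π) log b)`.
-/

set_option autoImplicit false

namespace Pool.Agent.Results.MP_e8d2ce_nt.LevelNearOne

open Finset Filter

/-- For `b ≥ 64` and `κ > 0` with `b^κ (2 + (2/π) log b) < b`, the `(2L+1)`-digit base-`b` palindromes have level of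
distribution `b^(κ L)` for moduli coprime to `2 b`, with all residue classes allowed. -/
theorem result (b : ℕ) (hb : 64 ≤ b) (κ : ℝ) (hκ0 : 0 < κ)
    (hκ : (b : ℝ) ^ κ * (2 + 2 / Real.pi * Real.log b) < b) (A : ℕ) : ∀ᶠ L : ℕ in atTop, ∀ h : ℕ → ℕ,
    ∑ q ∈ (Icc 1 ⌊(b : ℝ) ^ (κ * L)⌋₊).filter (fun q => q.Coprime (2 * b)),
      |(((range (b ^ (2 * L + 1))).filter (fun n => b ^ (2 * L) ≤ n ∧
          (Nat.digits b n).reverse = Nat.digits b n ∧ n ≡ h q [MOD q])).card : ℝ)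
          - ((b : ℝ) - 1) * (b : ℝ) ^ L / q| ≤ (b : ℝ) ^ L / (L : ℝ) ^ A := by
  obtain ⟨h1, h2, h3⟩ := Pool.Agent.W139.PX.HU_facts hb
  have hb0 : (0 : ℝ) < b := by exact_mod_cast (by omega : 0 < b)
  refine Pool.Agent.W139.PX.level_unif (by omega) (Pool.Agent.W139.PX.majP_unif hb) h1 h2 one_pos hκ0 ?_ A
  unfold Pool.Agent.W139.PX.HU
  rw [← mul_div_assoc, div_lt_one hb0]
  exact hκ

end Pool.Agent.Results.MP_e8d2ce_nt.LevelNearOne
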