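import Mathlib
import Pool.Agent.W139.PX.F4
import Pool.Agent.W139.PX.G1

/-!
Palindromes with few prime factors in the right order of magnitude, in every base `b ≥ 2`: at least
`c #P_b(x) / log x` of the base-`b` palindromes up to `x` have at most `k` prime factors, where `k = 3` for `b ≥ 1000`,
`k = 4` for `64 ≤ b < 1000` and `k = 5` for `b < 64`.
-/

set_option autoImplicit false

namespace Pool.Agent.Results.MP_e8d2ce_nt.RightOrder

open Finset Filter

/-- Let `b ≥ 2`, and `k = 3` for `b ≥ 1000`, `k = 4` for `64 ≤ b < 1000`, `k = 5` for `b < 64`.  There is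
`c > 0` such that for all large `x`, at least `c P / log x` of the `P` base-`b` palindromes `n ≤ x` have at most `k` prime
factors counted with multiplicity, all of them larger than `x^(1/30)`. -/
theorem result (b : ℕ) (hb : 2 ≤ b) : ∃ c : ℝ, 0 < c ∧ ∀ᶠ x : ℕ in atTop,
    c * (((Icc 1 x).filter (fun n => (Nat.digits b n).reverse = Nat.digits b n)).card : ℝ) / Real.log x ≤
      (((Icc 1 x).filter (fun n => (Nat.digits b n).reverse = Nat.digits b n ∧
        n.primeFactorsList.length ≤ (if 1000 ≤ b then 3 else if 64 ≤ b then 4 else 5) ∧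
        ∀ p ∈ n.primeFactorsList, (x : ℝ) ^ (1 / 30 : ℝ) < p)).card : ℝ) := by
  classical
  obtain ⟨c, hc0, hc⟩ := Pool.Agent.W139.PX.finU hb
  obtain ⟨c', hc0', hc'⟩ := Pool.Agent.W139.PX.to_x (by omega) hc0 hc
  refine ⟨c', hc0', ?_⟩
  filter_upwards [hc'] with x hx
  convert hx

end Pool.Agent.Results.MP_e8d2ce_nt.RightOrder
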