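import Mathlib
import Pool.Agent.W139.PX.E3

/-!
Palindromes with few prime factors in every base `b ≥ 2`: at most three prime factors for `b ≥ 9`, at most four for
`3 ≤ b ≤ 8` and at most five for `b = 2`.  For all large `N` at least `(3 b / 4) ^ N` of the palindromes with exactly
`2 N + 1` base-`b` digits have this property.
-/

set_option autoImplicit false

namespace Pool.Agent.Results.MP_e8d2ce_nt.ThreePrimeFactors

open Finset Filter

/-- In every base `b ≥ 2`, for all large `N` at least `(3 b / 4) ^ N` of the `n` with `b^(2N) ≤ n < b^(2N+1)` whose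
base-`b` digit sequence equals its own reverse have at most three (`b ≥ 9`), four (`3 ≤ b ≤ 8`), five (`b = 2`) prime
factors counted with multiplicity, and each of these prime factors exceeds `b^(N/13)`. -/
theorem result (b : ℕ) (hb : 2 ≤ b) : ∀ᶠ N : ℕ in atTop, (3 * (b : ℝ) / 4) ^ N ≤
    (((range (b ^ (2 * N + 1))).filter (fun n => b ^ (2 * N) ≤ n ∧
      (Nat.digits b n).reverse = Nat.digits b n ∧
      n.primeFactorsList.length ≤ (if 9 ≤ b then 3 else if 3 ≤ b then 4 else 5) ∧
      ∀ p ∈ n.primeFactorsList, (b : ℝ) ^ ((N : ℝ) / 13) < p)).card : ℝ) := by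
  classical
  have e : ∀ (b : ℕ) (N : ℕ), (b : ℝ) ^ ((1 / 13) * (N : ℝ)) = (b : ℝ) ^ ((N : ℝ) / 13) := by
    intro b N
    congr 1
    ring
  rcases Nat.lt_or_ge b 3 with h3 | h3
  · obtain rfl : b = 2 := by omega
    obtain ⟨c, hc0, hc⟩ := Pool.Agent.W139.PX.base2
    have hlim := tendsto_pow_const_mul_const_pow_of_abs_lt_one 1 (r := 3 / 4) (by norm_num)
    have hev : ∀ᶠ N : ℕ in atTop, (N : ℝ) ^ 1 * (3 / 4) ^ N < c := hlim.eventually (gt_mem_nhds hc0)
    filter_upwards [hc, hev, eventually_ge_atTop 1] with N h1 h4 h5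
    have hN0 : (0 : ℝ) < N := by exact_mod_cast h5
    rw [if_neg (by norm_num), if_neg (by norm_num)]
    simp only [e 2] at h1
    push_cast at h1 ⊢
    have h6 : (3 * 2 / 4 : ℝ) ^ N ≤ c * (2 : ℝ) ^ N / N := by
      rw [le_div_iff₀ hN0]
      have h7 : (3 * 2 / 4 : ℝ) ^ N = (3 / 4) ^ N * 2 ^ N := by
        rw [← mul_pow]; norm_num
      rw [h7]
      have h8 : (0 : ℝ) < 2 ^ N := by positivity
      have h9 := mul_lt_mul_of_pos_right h4 h8
      rw [pow_one] at h9
      nlinarith
    refine h6.trans (h1.trans (le_of_eq ?_))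
    congr!
  · have h := Pool.Agent.W139.PX.fin3 h3
    filter_upwards [h] with N hN
    simp only [e b] at hN
    convert hN

end Pool.Agent.Results.MP_e8d2ce_nt.ThreePrimeFactors
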